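import Pool.Agent.Y808.LB.Stm

/-!
# Lindel's lemma from the explicit case
-/

set_option autoImplicit false

open Polynomial IsLocalRing BQ Pool.Agent.H40.BP

namespace Pool.Agent.Y655.LB

open Pool.Agent.Y808.LB

/-- **Lindel's lemma** -/
theorem t_LIN : S_SURJ → S_PRIM → S_LINE → S_LIN := by
  intro hS hP hL B0 B _ _ _ _ _ _ _ _ hfin d a hd ha hmap hres hdim
  obtain ⟨ι, hι⟩ : ∃ ι : B0 →+* B, ι = algebraMap B0 B := ⟨_, rfl⟩
  have hgen : maximalIdeal B = Ideal.span (Set.range (algebraMap B0 B ∘ a)) := by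
    rw [← hmap, ha, Ideal.map_span, ← Set.range_comp]
  have hdom : IsDomain B :=
    (hS B B (RingHom.id B) d (algebraMap B0 B ∘ a) (fun x => ⟨x, rfl⟩) hgen hdim).2
  obtain ⟨b, F, hF, hFb, hFu, hz⟩ := hP B0 B hfin hmap hres
  obtain ⟨c, hc⟩ := hres b
  obtain ⟨a0, ha0, ha0n⟩ : ∃ a0 ∈ maximalIdeal B0, algebraMap B0 B a0 ≠ 0 := by
    by_contra hcon
    push Not at hcon
    have h1 : maximalIdeal B = ⊥ := by
      rw [hgen, Ideal.span_eq_bot]
      rintro _ ⟨i, rfl⟩
      refine hcon (a i) ?_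
      rw [ha]
      exact Ideal.subset_span ⟨i, rfl⟩
    have h2 : IsField B := IsLocalRing.isField_iff_maximalIdeal_eq.2 h1
    rw [ringKrullDim_eq_zero_of_isField h2] at hdim
    have h3 : (0 : ℕ) = d := by exact_mod_cast hdim
    omega
  have ha0m : algebraMap B0 B a0 ∈ maximalIdeal B := by
    rw [← hmap]
    exact Ideal.mem_map_of_mem _ ha0
  obtain ⟨c', hc', hc'n⟩ : ∃ c' : B0, b - algebraMap B0 B c' ∈ maximalIdeal B ∧
      b - algebraMap B0 B c' ≠ 0 := by
    by_cases h : b - algebraMap B0 B c = 0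
    · refine ⟨c - a0, ?_, ?_⟩
      · have e : b - algebraMap B0 B (c - a0) = algebraMap B0 B a0 := by
          rw [map_sub, sub_sub_eq_add_sub, add_sub_right_comm, h, zero_add]
        rw [e]
        exact ha0m
      · have e : b - algebraMap B0 B (c - a0) = algebraMap B0 B a0 := by
          rw [map_sub, sub_sub_eq_add_sub, add_sub_right_comm, h, zero_add]
        rw [e]
        exact ha0n
    · exact ⟨c, hc, h⟩
  have hev : ∀ P : B0[X], aeval (b - algebraMap B0 B c') (P.comp (X + C c')) = aeval b P := by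
    intro P
    rw [aeval_comp]
    congr 2
    rw [map_add, aeval_X, aeval_C]
    ring
  have hder : derivative (F.comp (X + C c')) = (derivative F).comp (X + C c') := by
    rw [derivative_comp]
    simp
  obtain ⟨h1, h2⟩ := hL B0 B d a ha hmap hdim (b - algebraMap B0 B c') (F.comp (X + C c')) hc'
    hc'n (hF.comp_X_add_C c') (by rw [hev, hFb]) (by rw [hder, hev]; exact hFu) (by
      intro z
      obtain ⟨P, Q, hQ, hPQ⟩ := hz z
      exact ⟨P.comp (X + C c'), Q.comp (X + C c'), by rw [hev]; exact hQ, by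
        rw [hev, hev]; exact hPQ⟩)
  exact ⟨_, h2, h1⟩

end Pool.Agent.Y655.LB
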